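import Pool.Agent.Helper10.Tannaka.Tens
import Pool.Agent.Helper10.Tannaka.NF
import Pool.Agent.Helper10.Tannaka.Comparison

open CategoryTheory TannakaNil

universe u v

/-- There are a nilpotent closed immersion `i : X₀ ⟶ X` of algebraic stacks and an algebraic stack
`T`, all quasi-compact and quasi-separated, such that the Tannaka comparison functor `ω_{X₀}(T')`
is an equivalence for every algebraic stack `T'`, in particular for `T' = T`, but `ω_X(T)` is not
faithful, so it is not an equivalence. -/
theorem Pool.Agent.Results.MP_5575af_ag.NilpotentThickening.result :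
    ∃ (X₀ X T : AlgStack.{0, 0}) (i : Mor X₀.toAffCat X.toAffCat),
      X₀.IsQcqs ∧ X.IsQcqs ∧ T.IsQcqs ∧
      IsNilpotentClosedImmersion i ∧
      (∀ T' : AlgStack.{u, v},
        (omega T'.toAffCat X₀.toAffCat X₀.isStack.groupoids).IsEquivalence) ∧
      (omega T.toAffCat X₀.toAffCat X₀.isStack.groupoids).IsEquivalence ∧
      ¬ (omega T.toAffCat X.toAffCat X.isStack.groupoids).Faithful ∧
      ¬ (omega T.toAffCat X.toAffCat X.isStack.groupoids).IsEquivalence := by
  obtain ⟨b', h⟩ := not_faithful
  exact ⟨BG base₀, BG base₁, BG b', baseHom.toMor, BG_isQcqs _, BG_isQcqs _, BG_isQcqs _,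
    isNilpotentClosedImmersion, fun T' => omega_isEquivalence (X0_tensorial T'.toAffCat _),
    omega_isEquivalence (X0_tensorial _ _), fun h' => h (omega_faithful h'),
    fun h' => h (omega_faithful h'.faithful)⟩
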